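import Pool.Agent.Y996.NL.Stm
import Pool.Agent.W819.EN.Layers

set_option autoImplicit false

/-! NL: colour changes between two sets in terms of paths of points -/

namespace Pool.Agent.Y996.NL

open H974 H906.Cyl Finset Pool.Agent.W819.EN MeasureTheory
open Pool.Agent.H863R2.NL (Pt Free Change Corner)
open Pool.Agent.H863R2.NL.InfAux (ph ph_inj ph_surj free_iff change_iff ph_true ph_false)

/-- the data of a notion of reachability from `P` with at most `k` changes -/
theorem np_eq {ω : sqLattice.edgeSet → Bool} {P Q : Set Vtx} {Rch : ℕ → Pt → Prop}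
    (h1 : ∀ k p, Rch k p → ∃ u ∈ P, Ch (Mv (opn ω)) St k (fc u) (ph p))
    (hs : ∀ u ∈ P, ∀ k, Rch k (u, true))
    (hf : ∀ k p q, Rch k p → Free ω p q → Rch k q)
    (hc : ∀ k p q, Rch k p → Change p q → Rch (k + 1) q) :
    sInf {k | ∃ v ∈ Q, Rch k (v, true)} = NP (opn ω) P Q := by
  have key : ∀ {k : ℕ} {a b : ℤ × ℤ}, Ch (Mv (opn ω)) St k a b → ∀ u ∈ P, a = fc u →
      ∀ p : Pt, ph p = b → Rch k p := by
    intro k a b h u hu
    induction h with
    | refl k a =>
      intro ha p hp
      have : p = (u, true) := ph_inj (by rw [hp, ha]; rfl)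
      rw [this]
      exact hs u hu k
    | rel _ h ih =>
      intro ha p hp
      obtain ⟨q, hq⟩ := ph_surj _
      refine hf _ _ _ (ih ha q hq) (free_iff.2 ?_)
      rw [hq, hp]
      exact h
    | step _ h ih =>
      intro ha p hp
      obtain ⟨q, hq⟩ := ph_surj _
      refine hc _ _ _ (ih ha q hq) (change_iff.2 ?_)
      rw [hq, hp]
      exact h
  unfold NP
  congr 1
  ext k
  constructor
  · rintro ⟨v, hv, h⟩
    obtain ⟨u, hu, h'⟩ := h1 k _ h
    exact ⟨u, hu, v, hv, h'⟩
  · rintro ⟨u, hu, v, hv, h⟩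
    exact ⟨v, hv, key h u hu rfl (v, true) rfl⟩

end Pool.Agent.Y996.NL
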