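import Pool.Agent.Y996.NL.Fin0
import Pool.Agent.Y996.NL.Lay
import Pool.Agent.Z932.NL.U1
import Pool.Agent.Y614.NL.U2
import Pool.Agent.Y261.NL.Low
import Pool.Agent.Z864.NL.Ind
import Pool.Agent.Y587.NL.Si
import Pool.Agent.Y587.NL.Dv
import Pool.Agent.Y448.NL.Ex
import Pool.Agent.Y488.NL.ME
import Pool.Agent.Y155.NL.Ge

set_option autoImplicit false

/-! NL: assembly -/

namespace Pool.Agent.Y996.NL

open H974 H906.Cyl Finset Pool.Agent.W819.EN Pool.Agent.W819.NC MeasureTheory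
open Pool.Agent.Y996.RD hiding hlf

theorem sUP : S_UP := Pool.Agent.Y614.NL.up Pool.Agent.Z932.NL.u1 Pool.Agent.Y614.NL.u2

theorem sPT : S_PT := pt sUP Pool.Agent.Y261.NL.low Pool.Agent.Y587.NL.dv Pool.Agent.Y587.NL.ng

theorem sEX : S_EX := Pool.Agent.Y448.NL.ex Pool.Agent.Y587.NL.si Pool.Agent.Z864.NL.ind

theorem sINF : S_INF := inf sEX sPT Pool.Agent.Y488.NL.me

/-- the main theorem -/
theorem main {t : ℝ} (ht : 0 ≤ t) :
    ∃ c C : ℝ, 0 < c ∧ 0 < C ∧ ∀ (A B : Set (OnePoint ℂ)) (ε : ℝ),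
    IsClosed A → IsPreconnected A → IsClosed B → IsPreconnected B → Disjoint A B → 0 < ε →
    (∃ x ∈ tr A, ∃ y ∈ tr A, ε ≤ dist x y) → (∃ x ∈ tr B, ∃ y ∈ tr B, ε ≤ dist x y) →
    c * Real.exp (2 * Real.pi * Psi t * modulus (tr A) (tr B)) ≤
      ∫ ω, t ^ NP (opn ω) (near ε (tr A)) (near ε (tr B)) ∂(bondLaw hlf) ∧
    ∫ ω, t ^ NP (opn ω) (near ε (tr A)) (near ε (tr B)) ∂(bondLaw hlf) ≤
      C * Real.exp (2 * Real.pi * Psi t * modulus (tr A) (tr B)) :=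
  main' Pool.Agent.Y155.NL.ge Pool.Agent.Y155.NL.rt sINF Pool.Agent.Y261.NL.sm
    Pool.Agent.Y488.NL.me Pool.Agent.Y488.NL.sy Pool.Agent.Y488.NL.z0 ht

end Pool.Agent.Y996.NL
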