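import Pool.Agent.Y996.NL.Inf
import Pool.Agent.Y996.RD.Main

set_option autoImplicit false

/-! NL: from the lattice to the plane -/

namespace Pool.Agent.Y996.NL

open H974 H906.Cyl Finset Pool.Agent.W819.EN Pool.Agent.W819.NC MeasureTheory
open Pool.Agent.Y996.RD hiding hlf

/-- comparison of powers -/
theorem rpow_cmp {x y k p : ℝ} (hx : 0 < x) (hk : 1 ≤ k) (h1 : x / k ≤ y) (h2 : y ≤ k * x) :
    (k ^ |p|)⁻¹ * x ^ p ≤ y ^ p ∧ y ^ p ≤ k ^ |p| * x ^ p := by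
  have hk0 : 0 < k := by linarith
  have hxk : 0 < x / k := by positivity
  have hy : 0 < y := hxk.trans_le h1
  rcases le_total 0 p with hp | hp
  · rw [abs_of_nonneg hp]
    constructor
    · calc (k ^ p)⁻¹ * x ^ p = (x / k) ^ p := by
            rw [Real.div_rpow hx.le hk0.le]; ring
        _ ≤ y ^ p := Real.rpow_le_rpow hxk.le h1 hp
    · calc y ^ p ≤ (k * x) ^ p := Real.rpow_le_rpow hy.le h2 hp
        _ = _ := Real.mul_rpow hk0.le hx.le
  · rw [abs_of_nonpos hp]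
    constructor
    · calc (k ^ (-p))⁻¹ * x ^ p = (k * x) ^ p := by
            rw [Real.rpow_neg hk0.le, inv_inv, Real.mul_rpow hk0.le hx.le]
        _ ≤ y ^ p := Real.rpow_le_rpow_of_nonpos hy h2 hp
    · calc y ^ p ≤ (x / k) ^ p := Real.rpow_le_rpow_of_nonpos hxk h1 hp
        _ = k ^ (-p) * x ^ p := by
            rw [Real.div_rpow hx.le hk0.le, Real.rpow_neg hk0.le]; ring

/-- products of powers -/
theorem pow_exp' {d ρ σ p : ℝ} (hd : 0 < d) (hρ : 0 < ρ) (hσ : 0 < σ) :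
    (d / ρ) ^ p * (d / σ) ^ p = Real.exp (2 * Real.pi * p *
      ((Real.log (d / ρ) + Real.log (d / σ)) / (2 * Real.pi))) := by
  have hpi := Real.pi_pos
  rw [Real.rpow_def_of_pos (by positivity), Real.rpow_def_of_pos (by positivity), ← Real.exp_add]
  congr 1
  field_simp

/-- the bound for two sets in good position -/
def Bd (t c C : ℝ) : Prop := ∀ (ε : ℝ) (K L : Set ℂ) (z w : ℂ) (ρ σ : ℝ), 0 < ε →
  Good ε K z (dist z w) ρ → Good ε L w (dist z w) σ →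
  (∀ x ∈ K, ∀ y ∈ L, dist z w ≤ dist x y) → 0 < dist z w → (nv ε z).1 ≤ (nv ε w).1 →
  c * ((dist z w / ρ) ^ Psi t * (dist z w / σ) ^ Psi t) ≤
    ∫ ω, t ^ NP (opn ω) (near ε K) (near ε L) ∂(bondLaw hlf) ∧
  ∫ ω, t ^ NP (opn ω) (near ε K) (near ε L) ∂(bondLaw hlf) ≤
    C * ((dist z w / ρ) ^ Psi t * (dist z w / σ) ^ Psi t)

theorem int_const_bd {t : ℝ} (ht : 0 < t) (hME : S_ME) {P Q : Set Vtx} {n : ℕ}
    (h : ∀ ω : sqLattice.edgeSet → Bool, NP (opn ω) P Q ≤ n) :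
    ((max t t⁻¹) ^ n)⁻¹ ≤ ∫ ω, t ^ NP (opn ω) P Q ∂(bondLaw hlf) ∧
    ∫ ω, t ^ NP (opn ω) P Q ∂(bondLaw hlf) ≤ (max t t⁻¹) ^ n := by
  have hbt : ∀ ω : sqLattice.edgeSet → Bool, ((max t t⁻¹) ^ n)⁻¹ ≤ t ^ NP (opn ω) P Q ∧
      t ^ NP (opn ω) P Q ≤ (max t t⁻¹) ^ n := by
    intro ω
    have := pow_between ht (x := 0) (n := NP (opn ω) P Q) (y := n) (Nat.zero_le _)
      (by rw [zero_add]; exact h ω)
    rwa [pow_zero, one_mul, one_mul] at this
  have hmeas : Measurable (fun ω : sqLattice.edgeSet → Bool => t ^ NP (opn ω) P Q) :=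
    (measurable_from_top (f := fun n : ℕ => t ^ n)).comp (hME P Q)
  have i3 : Integrable (fun ω : sqLattice.edgeSet → Bool => t ^ NP (opn ω) P Q) (bondLaw hlf) := by
    refine (integrable_const ((max t t⁻¹) ^ n)).mono' hmeas.aestronglyMeasurable
      (Filter.Eventually.of_forall fun ω => ?_)
    rw [Real.norm_eq_abs, abs_of_nonneg (by positivity)]
    exact (hbt ω).2
  have j1 := integral_mono (integrable_const (((max t t⁻¹) ^ n)⁻¹)) i3 (fun ω => (hbt ω).1)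
  have j2 := integral_mono i3 (integrable_const ((max t t⁻¹) ^ n)) (fun ω => (hbt ω).2)
  rw [integral_const, probReal_univ, one_smul] at j1 j2
  exact ⟨j1, j2⟩

theorem bd (hGE : S_GE) (hRT : S_RT) (hINF : S_INF) (hSM : S_SM) (hME : S_ME) {t : ℝ}
    (ht : 0 < t) : ∃ c C : ℝ, 0 < c ∧ 0 < C ∧ Bd t c C := by
  obtain ⟨c0, C0, hc0, hC0, hinf⟩ := hINF t 700 ht
  obtain ⟨p, hp⟩ : ∃ p, p = Psi t := ⟨_, rfl⟩
  obtain ⟨s, hs⟩ : ∃ s, s = (max t t⁻¹) ^ (4 * 65) := ⟨_, rfl⟩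
  have hm0 : 0 < max t t⁻¹ := ht.trans_le (le_max_left _ _)
  have hs0 : 0 < s := by rw [hs]; positivity
  obtain ⟨k, hk⟩ : ∃ k : ℝ, k = 64 ^ |p| := ⟨_, rfl⟩
  have hk0 : 0 < k := by rw [hk]; positivity
  refine ⟨min (c0 * (k⁻¹ * k⁻¹)) (s⁻¹ * (k⁻¹ * k⁻¹)), max (C0 * (k * k)) (s * (k * k)),
    by positivity, by positivity, ?_⟩
  intro ε K L z w ρ σ hε h1 h2 hmin hd hnv
  rw [← hp]
  obtain ⟨d, hdd⟩ : ∃ d, d = dist z w := ⟨_, rfl⟩
  have hρ := h1.size.pos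
  have hσ := h2.size.pos
  have hρd := h1.size.le
  have hσd := h2.size.le
  obtain ⟨X, hX⟩ : ∃ X, X = (d / ρ) ^ p := ⟨_, rfl⟩
  obtain ⟨Y, hY⟩ : ∃ Y, Y = (d / σ) ^ p := ⟨_, rfl⟩
  have hd0 : 0 < d := by rw [hdd]; exact hd
  have hX0 : 0 < X := by rw [hX]; positivity
  have hY0 : 0 < Y := by rw [hY]; positivity
  rw [← hdd, ← hX, ← hY]
  rcases le_total (64 * ε) (dist z w) with h64 | h64
  · obtain ⟨g1, g2⟩ := hGE ε K L z w ρ σ hε h1.chain h2.chain h1.size h2.size hmin h64 hnv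
    obtain ⟨e1, e2⟩ := hinf _ _ _ _ _ _ _ _ _ _ _ g1 g2
    obtain ⟨r1, r2⟩ := hRT ε (dist z w) ρ hε hρ hρd h1.mesh h64
    obtain ⟨r3, r4⟩ := hRT ε (dist z w) σ hε hσ hσd h2.mesh h64
    rw [← hdd] at r1 r2 r3 r4 e1 e2
    rw [← hp] at e1 e2
    obtain ⟨x, hx⟩ : ∃ x : ℝ, x = ((⌊d / (8 * ε)⌋₊ : ℕ) : ℝ) / (ir ε ρ ⌊d / (8 * ε)⌋₊ : ℕ) :=
      ⟨_, rfl⟩
    obtain ⟨y, hy⟩ : ∃ y : ℝ, y = ((⌊d / (8 * ε)⌋₊ : ℕ) : ℝ) / (ir ε σ ⌊d / (8 * ε)⌋₊ : ℕ) :=
      ⟨_, rfl⟩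
    rw [← hx] at r1 r2 e1 e2
    rw [← hy] at r3 r4 e1 e2
    have a0 : 0 < d / ρ := by positivity
    have b0 : 0 < d / σ := by positivity
    obtain ⟨a1, a2⟩ := rpow_cmp (p := p) a0 (show (1:ℝ) ≤ 64 by norm_num)
      (show d / ρ / 64 ≤ x by
        refine le_trans ?_ r1
        exact div_le_div_of_nonneg_left a0.le (by norm_num) (by norm_num)) (by linarith)
    obtain ⟨b1, b2⟩ := rpow_cmp (p := p) b0 (show (1:ℝ) ≤ 64 by norm_num)
      (show d / σ / 64 ≤ y by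
        refine le_trans ?_ r3
        exact div_le_div_of_nonneg_left b0.le (by norm_num) (by norm_num)) (by linarith)
    rw [← hk, ← hX] at a1 a2
    rw [← hk, ← hY] at b1 b2
    constructor
    · refine le_trans ?_ e1
      calc min (c0 * (k⁻¹ * k⁻¹)) (s⁻¹ * (k⁻¹ * k⁻¹)) * (X * Y)
          ≤ c0 * (k⁻¹ * k⁻¹) * (X * Y) :=
            mul_le_mul_of_nonneg_right (min_le_left _ _) (by positivity)
        _ = c0 * ((k⁻¹ * X) * (k⁻¹ * Y)) := by ring
        _ ≤ c0 * (x ^ p * y ^ p) := by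
            apply mul_le_mul_of_nonneg_left _ hc0.le
            exact mul_le_mul a1 b1 (by positivity) ((by positivity : (0:ℝ) ≤ k⁻¹ * X).trans a1)
    · refine e2.trans ?_
      calc C0 * (x ^ p * y ^ p) ≤ C0 * ((k * X) * (k * Y)) := by
            apply mul_le_mul_of_nonneg_left _ hC0.le
            exact mul_le_mul a2 b2 ((by positivity : (0:ℝ) ≤ k⁻¹ * Y).trans b1) (by positivity)
        _ = C0 * (k * k) * (X * Y) := by ring
        _ ≤ _ := mul_le_mul_of_nonneg_right (le_max_left _ _) (by positivity)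
  · have hcl := lat_close hε (le_refl (dist z w)) (nv_abs hε z) (nv_abs hε w) (n := 65)
      (by push_cast; linarith)
    have hN : ∀ ω : sqLattice.edgeSet → Bool, NP (opn ω) (near ε K) (near ε L) ≤ 4 * 65 :=
      fun ω => hSM (opn ω) _ _ _ _ 65 (nv_near hε h1.size.mem) (nv_near hε h2.size.mem)
        hcl.1 hcl.2
    obtain ⟨e1, e2⟩ := int_const_bd ht hME hN
    rw [← hs] at e1 e2
    have aux : ∀ τ : ℝ, 0 < τ → τ ≤ d → (ε ≤ τ ∨ τ = d) → k⁻¹ ≤ (d / τ) ^ p ∧ (d / τ) ^ p ≤ k := by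
      intro τ hτ hτd hm
      have h3 : 1 ≤ d / τ := by rw [le_div_iff₀ hτ]; linarith
      have h4 : d / τ ≤ 64 := by
        rw [div_le_iff₀ hτ]
        rcases hm with hm | hm
        · rw [hdd]; linarith
        · linarith
      have := rpow_cmp (p := p) (x := 1) (y := d / τ) (k := 64) one_pos (by norm_num)
        (by linarith) (by linarith)
      rwa [Real.one_rpow, mul_one, mul_one, ← hk] at this
    obtain ⟨a1, a2⟩ := aux ρ hρ (by rw [hdd]; exact hρd) (by rw [hdd]; exact h1.mesh)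
    obtain ⟨b1, b2⟩ := aux σ hσ (by rw [hdd]; exact hσd) (by rw [hdd]; exact h2.mesh)
    rw [← hX] at a1 a2
    rw [← hY] at b1 b2
    constructor
    · refine le_trans ?_ e1
      calc min (c0 * (k⁻¹ * k⁻¹)) (s⁻¹ * (k⁻¹ * k⁻¹)) * (X * Y)
          ≤ s⁻¹ * (k⁻¹ * k⁻¹) * (k * k) := by
            apply mul_le_mul (min_le_right _ _) _ (by positivity) (by positivity)
            exact mul_le_mul a2 b2 hY0.le hk0.le
        _ = s⁻¹ := by field_simp
    · refine e2.trans ?_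
      calc s = s * (k * k) * (k⁻¹ * k⁻¹) := by field_simp
        _ ≤ max (C0 * (k * k)) (s * (k * k)) * (X * Y) := by
            apply mul_le_mul (le_max_right _ _) _ (by positivity) (by positivity)
            exact mul_le_mul a1 b1 (by positivity) hX0.le

/-- the main theorem for `t > 0` -/
theorem main_pos (hGE : S_GE) (hRT : S_RT) (hINF : S_INF) (hSM : S_SM) (hME : S_ME)
    (hSY : S_SY) {t : ℝ} (ht : 0 < t) :
    ∃ c C : ℝ, 0 < c ∧ 0 < C ∧ ∀ (A B : Set (OnePoint ℂ)) (ε : ℝ),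
    IsClosed A → IsPreconnected A → IsClosed B → IsPreconnected B → Disjoint A B → 0 < ε →
    (∃ x ∈ tr A, ∃ y ∈ tr A, ε ≤ dist x y) → (∃ x ∈ tr B, ∃ y ∈ tr B, ε ≤ dist x y) →
    c * Real.exp (2 * Real.pi * Psi t * modulus (tr A) (tr B)) ≤
      ∫ ω, t ^ NP (opn ω) (near ε (tr A)) (near ε (tr B)) ∂(bondLaw hlf) ∧
    ∫ ω, t ^ NP (opn ω) (near ε (tr A)) (near ε (tr B)) ∂(bondLaw hlf) ≤
      C * Real.exp (2 * Real.pi * Psi t * modulus (tr A) (tr B)) := by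
  obtain ⟨c', C', hc', hC', hbd⟩ := bd hGE hRT hINF hSM hME ht
  have hpi := Real.pi_pos
  obtain ⟨p, hp⟩ : ∃ p, p = 2 * Real.pi * Psi t := ⟨_, rfl⟩
  refine ⟨c' * Real.exp (-(|p| * 220)), C' * Real.exp (|p| * 220),
    by positivity, by positivity, ?_⟩
  have key : ∀ (A B : Set (OnePoint ℂ)) (ε : ℝ), OnePoint.infty ∉ A →
      IsClosed A → IsPreconnected A → IsClosed B → IsPreconnected B → Disjoint A B → 0 < ε →
      (∃ x ∈ tr A, ∃ y ∈ tr A, ε ≤ dist x y) → (∃ x ∈ tr B, ∃ y ∈ tr B, ε ≤ dist x y) →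
      c' * Real.exp (-(|p| * 220)) * Real.exp (p * modulus (tr A) (tr B)) ≤
        ∫ ω, t ^ NP (opn ω) (near ε (tr A)) (near ε (tr B)) ∂(bondLaw hlf) ∧
      ∫ ω, t ^ NP (opn ω) (near ε (tr A)) (near ε (tr B)) ∂(bondLaw hlf) ≤
        C' * Real.exp (|p| * 220) * Real.exp (p * modulus (tr A) (tr B)) := by
    intro A B ε hinf hA hA' hB hB' hdis hε hAd hBd
    have hAd' := hAd
    have hBd' := hBd
    obtain ⟨x0, hx0, -⟩ := hAd'
    obtain ⟨y0, hy0, -⟩ := hBd'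
    obtain ⟨z, hz, w, hw, hmin⟩ := closest (tr_compact hA hinf) ⟨x0, hx0⟩ (tr_closed hB)
      ⟨y0, hy0⟩
    have hne : z ≠ w := by
      intro h
      rw [h] at hz
      exact Set.disjoint_left.mp hdis hz hw
    have hd0 : 0 < dist z w := dist_pos.mpr hne
    obtain ⟨ρ, h1⟩ := good_fin (tr_closed hA) (tr_conn hA' hinf) hz hd0 hε hAd
    obtain ⟨σ, h2⟩ : ∃ σ, Good ε (tr B) w (dist z w) σ := by
      by_cases hb : OnePoint.infty ∈ B
      · exact ⟨_, good_inf hε hB hB' hb hw hd0⟩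
      · exact good_fin (tr_closed hB) (tr_conn hB' hb) hw hd0 hε hBd
    have ab : c' * ((dist z w / ρ) ^ Psi t * (dist z w / σ) ^ Psi t) ≤
        ∫ ω, t ^ NP (opn ω) (near ε (tr A)) (near ε (tr B)) ∂(bondLaw hlf) ∧
        ∫ ω, t ^ NP (opn ω) (near ε (tr A)) (near ε (tr B)) ∂(bondLaw hlf) ≤
        C' * ((dist z w / ρ) ^ Psi t * (dist z w / σ) ^ Psi t) := by
      rcases le_total (nv ε z).1 (nv ε w).1 with h | h
      · exact hbd ε _ _ z w ρ σ hε h1 h2 hmin hd0 h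
      · have := hbd ε (tr B) (tr A) w z σ ρ hε (by rw [dist_comm]; exact h2)
          (by rw [dist_comm]; exact h1)
          (fun x hx y hy => by rw [dist_comm w, dist_comm x]; exact hmin y hy x hx)
          (by rw [dist_comm]; exact hd0) h
        rw [dist_comm w z, mul_comm ((dist z w / σ) ^ Psi t)] at this
        simp only [hSY _ (near ε (tr B)) (near ε (tr A))] at this
        exact this
    have m1 := modulus_le h1.hits h2.hits h1.size h2.size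
    have m2 := modulus_ge h1.hits h2.hits h1.size h2.size hmin
    rw [pow_exp' hd0 h1.size.pos h2.size.pos] at ab
    obtain ⟨Λ, hΛ⟩ : ∃ Λ, Λ = (Real.log (dist z w / ρ) + Real.log (dist z w / σ)) /
      (2 * Real.pi) := ⟨_, rfl⟩
    rw [← hΛ] at ab m1 m2
    rw [← hp] at ab
    obtain ⟨m, hm⟩ : ∃ m, m = modulus (tr A) (tr B) := ⟨_, rfl⟩
    rw [← hm] at m1 m2 ⊢
    have hab : |p * m - p * Λ| ≤ |p| * 220 := by
      rw [← mul_sub, abs_mul]
      apply mul_le_mul_of_nonneg_left _ (abs_nonneg p)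
      rw [abs_le]
      constructor <;> linarith
    have hab' := abs_le.mp hab
    constructor
    · refine le_trans ?_ ab.1
      rw [mul_assoc, ← Real.exp_add]
      apply mul_le_mul_of_nonneg_left _ hc'.le
      apply Real.exp_le_exp.mpr
      linarith
    · refine ab.2.trans ?_
      rw [mul_assoc, ← Real.exp_add]
      apply mul_le_mul_of_nonneg_left _ hC'.le
      apply Real.exp_le_exp.mpr
      linarith
  intro A B ε hA hA' hB hB' hdis hε hAd hBd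
  rw [← hp]
  by_cases hinf : OnePoint.infty ∈ A
  · have hinfB : OnePoint.infty ∉ B := fun h => Set.disjoint_left.mp hdis hinf h
    have := key B A ε hinfB hB hB' hA hA' hdis.symm hε hBd hAd
    rw [modulus_symm (tr A)]
    simp only [hSY _ (near ε (tr A)) (near ε (tr B))]
    exact this
  · exact key A B ε hinf hA hA' hB hB' hdis hε hAd hBd

end Pool.Agent.Y996.NL
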