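import Pool.Agent.Y996.NL.Fin

set_option autoImplicit false

/-! NL: the main theorem, `t ≥ 0` -/

namespace Pool.Agent.Y996.NL

open H974 H906.Cyl Finset Pool.Agent.W819.EN Pool.Agent.W819.NC MeasureTheory
open Pool.Agent.Y996.RD hiding hlf

theorem Psi_zero : Psi 0 = -(5 / 48) := by
  have hpi := Real.pi_pos
  unfold Psi
  rw [zero_div, Real.arccos_zero, max_eq_right zero_le_one, Real.arcosh_zero]
  field_simp
  ring

theorem cross_eq (hME : S_ME) (hZ0 : S_Z0) {ε : ℝ} {K L : Set ℂ} (hK : (near ε K).Nonempty)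
    (hL : (near ε L).Nonempty) :
    ∫ ω, (0:ℝ) ^ NP (opn ω) (near ε K) (near ε L) ∂(bondLaw hlf) = cross ε K L := by
  have h1 : MeasurableSet {ω : sqLattice.edgeSet → Bool |
      NP (opn ω) (near ε K) (near ε L) = 0} := (hME _ _) (measurableSet_singleton 0)
  have h2 : ∀ ω : sqLattice.edgeSet → Bool, (0:ℝ) ^ NP (opn ω) (near ε K) (near ε L) =
      Set.indicator {ω : sqLattice.edgeSet → Bool | NP (opn ω) (near ε K) (near ε L) = 0}
        (fun _ => (1:ℝ)) ω := by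
    intro ω
    by_cases h : NP (opn ω) (near ε K) (near ε L) = 0
    · rw [Set.indicator_of_mem (show ω ∈ {ω : sqLattice.edgeSet → Bool |
        NP (opn ω) (near ε K) (near ε L) = 0} from h), h, pow_zero]
    · rw [Set.indicator_of_notMem (show ω ∉ {ω : sqLattice.edgeSet → Bool |
        NP (opn ω) (near ε K) (near ε L) = 0} from h), zero_pow h]
  rw [integral_congr_ae (Filter.Eventually.of_forall h2), integral_indicator_const _ h1,
    smul_eq_mul, mul_one]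
  unfold cross
  have e : {ω : sqLattice.edgeSet → Bool | NP (opn ω) (near ε K) (near ε L) = 0} =
      {ω | ∃ u ∈ near ε K, ∃ v ∈ near ε L, (openGraph ω).Reachable u v} := by
    ext ω
    exact hZ0 ω _ _ hK hL
  rw [e]
  rfl

/-- the main theorem -/
theorem main' (hGE : S_GE) (hRT : S_RT) (hINF : S_INF) (hSM : S_SM) (hME : S_ME)
    (hSY : S_SY) (hZ0 : S_Z0) {t : ℝ} (ht : 0 ≤ t) :
    ∃ c C : ℝ, 0 < c ∧ 0 < C ∧ ∀ (A B : Set (OnePoint ℂ)) (ε : ℝ),
    IsClosed A → IsPreconnected A → IsClosed B → IsPreconnected B → Disjoint A B → 0 < ε →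
    (∃ x ∈ tr A, ∃ y ∈ tr A, ε ≤ dist x y) → (∃ x ∈ tr B, ∃ y ∈ tr B, ε ≤ dist x y) →
    c * Real.exp (2 * Real.pi * Psi t * modulus (tr A) (tr B)) ≤
      ∫ ω, t ^ NP (opn ω) (near ε (tr A)) (near ε (tr B)) ∂(bondLaw hlf) ∧
    ∫ ω, t ^ NP (opn ω) (near ε (tr A)) (near ε (tr B)) ∂(bondLaw hlf) ≤
      C * Real.exp (2 * Real.pi * Psi t * modulus (tr A) (tr B)) := by
  rcases ht.eq_or_lt with h0 | h0
  · subst h0
    obtain ⟨c, C, hc, hC, h⟩ := Pool.Agent.Y996.RD.main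
    refine ⟨c, C, hc, hC, ?_⟩
    intro A B ε hA hA' hB hB' hdis hε hAd hBd
    have h1 := h A B ε hA hA' hB hB' hdis hε hAd hBd
    obtain ⟨x, hx, -⟩ := hAd
    obtain ⟨y, hy, -⟩ := hBd
    rw [cross_eq hME hZ0 ⟨_, nv_near hε hx⟩ ⟨_, nv_near hε hy⟩, Psi_zero]
    have e : 2 * Real.pi * -(5 / 48) * modulus (tr A) (tr B) =
      -(5 * Real.pi / 24) * modulus (tr A) (tr B) := by ring
    rw [e]
    exact h1
  · exact main_pos hGE hRT hINF hSM hME hSY h0

end Pool.Agent.Y996.NL
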