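import Pool.Agent.Y996.NL.PT

set_option autoImplicit false

/-! NL: expectation in the infinite lattice -/

namespace Pool.Agent.Y996.NL

open H974 H906.Cyl Finset Pool.Agent.W819.EN Pool.Agent.W819.NC MeasureTheory

theorem integrable_FF (p : unitInterval) (S : Finset Edg) (g : Finset Edg → ℝ) :
    Integrable (fun ω : sqLattice.edgeSet → Bool => g (FF S ω)) (bondLaw p) := by
  classical
  have h1 : ∀ ω, ∑ T ∈ S.powerset,
      Set.indicator {ω | FF S ω = T} (fun _ => g T) ω = g (FF S ω) := by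
    intro ω
    rw [Finset.sum_eq_single (FF S ω)]
    · rw [Set.indicator_of_mem (show ω ∈ {ω' | FF S ω' = FF S ω} from rfl)]
    · intro T _ hT
      exact Set.indicator_of_notMem (fun h => hT (Eq.symm h)) _
    · intro h
      exact absurd (Finset.mem_powerset.2 (Finset.filter_subset _ _)) h
  have h2 : ∀ T ∈ S.powerset, Integrable
      (Set.indicator {ω : sqLattice.edgeSet → Bool | FF S ω = T} (fun _ => g T)) (bondLaw p) :=
    fun T _ => (integrable_const (g T)).indicator (meas_FF S T)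
  exact (integrable_finset_sum _ h2).congr (Filter.Eventually.of_forall h1)

theorem pow_between {t : ℝ} (ht : 0 < t) {x n y : ℕ} (h1 : x ≤ n) (h2 : n ≤ x + y) :
    t ^ x * ((max t t⁻¹) ^ y)⁻¹ ≤ t ^ n ∧ t ^ n ≤ t ^ x * (max t t⁻¹) ^ y := by
  obtain ⟨m, rfl⟩ := Nat.exists_eq_add_of_le h1
  have hm : m ≤ y := by omega
  obtain ⟨s, hs⟩ : ∃ s, s = max t t⁻¹ := ⟨_, rfl⟩
  rw [← hs]
  have s1 : t ≤ s := by rw [hs]; exact le_max_left _ _
  have s2 : t⁻¹ ≤ s := by rw [hs]; exact le_max_right _ _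
  have s0 : 0 < s := ht.trans_le s1
  have s3 : 1 ≤ s := by
    by_contra h
    push Not at h
    have : t * t⁻¹ = 1 := mul_inv_cancel₀ ht.ne'
    have h3 : t * t⁻¹ ≤ s * s := mul_le_mul s1 s2 (by positivity) s0.le
    nlinarith
  have s4 : s⁻¹ ≤ t := by
    have := inv_anti₀ (by positivity) s2
    rwa [inv_inv] at this
  rw [pow_add]
  constructor
  · apply mul_le_mul_of_nonneg_left _ (by positivity)
    calc (s ^ y)⁻¹ ≤ (s ^ m)⁻¹ := inv_anti₀ (by positivity) (pow_le_pow_right₀ s3 hm)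
      _ = s⁻¹ ^ m := by rw [inv_pow]
      _ ≤ t ^ m := pow_le_pow_left₀ (by positivity) s4 m
  · apply mul_le_mul_of_nonneg_left _ (by positivity)
    exact (pow_le_pow_left₀ ht.le s1 m).trans (pow_le_pow_right₀ s3 hm)

theorem inf (hEX : S_EX) (hPT : S_PT) (hME : S_ME) : S_INF := by
  intro t M ht
  obtain ⟨B, hB, hex⟩ := hEX NA Wc Kc sys locG aMom tIn tOut t M ht
  obtain ⟨c1, C1, hc1, hC1, hann⟩ := annS t ht
  refine ⟨B⁻¹ * (c1 * c1), B * (C1 * C1), by positivity, by positivity, ?_⟩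
  intro P Q v w a b r r' R c D hp hq
  obtain ⟨S, hS⟩ : ∃ S, S = bx v ((16 * D : ℕ) : ℤ) ∪ bx w ((16 * D : ℕ) : ℤ) := ⟨_, rfl⟩
  have hv : bx v ((16 * D : ℕ) : ℤ) ⊆ S := by rw [hS]; exact subset_union_left
  have hw : bx w ((16 * D : ℕ) : ℤ) ⊆ S := by rw [hS]; exact subset_union_right
  obtain ⟨e1, e2⟩ := hex v w a b r r' R c D hp S hv hw
  obtain ⟨g1, g2⟩ := hann r R hp.r1 hp.rR
  obtain ⟨g3, g4⟩ := hann r' R hp.r1' hp.rR'
  have hr0 : (0:ℝ) < r := by exact_mod_cast hp.r1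
  have hr0' : (0:ℝ) < r' := by exact_mod_cast hp.r1'
  have hR0 : (0:ℝ) < R := by exact_mod_cast (hp.r1.trans hp.rR)
  obtain ⟨X, hX⟩ : ∃ X : ℝ, X = ((R : ℝ) / r) ^ Psi t := ⟨_, rfl⟩
  obtain ⟨Y, hY⟩ : ∃ Y : ℝ, Y = ((R : ℝ) / r') ^ Psi t := ⟨_, rfl⟩
  have hX0 : 0 < X := by rw [hX]; positivity
  have hY0 : 0 < Y := by rw [hY]; positivity
  rw [← hX] at g1 g2 ⊢
  rw [← hY] at g3 g4 ⊢
  obtain ⟨g, hg⟩ : ∃ g : Finset Edg → ℝ, g = fun F => t ^ (NA F v r R + NA F w r' R) *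
      (max t t⁻¹) ^ (∑ j ∈ range 11, VV NA Wc Kc v w a b r r' c D j F) := ⟨_, rfl⟩
  obtain ⟨g', hg'⟩ : ∃ g' : Finset Edg → ℝ, g' = fun F => t ^ (NA F v r R + NA F w r' R) *
      ((max t t⁻¹) ^ (∑ j ∈ range 11, VV NA Wc Kc v w a b r r' c D j F))⁻¹ := ⟨_, rfl⟩
  have hbt : ∀ ω : sqLattice.edgeSet → Bool, g' (FF S ω) ≤ t ^ NP (opn ω) P Q ∧
      t ^ NP (opn ω) P Q ≤ g (FF S ω) := by
    intro ω
    obtain ⟨p1, p2⟩ := hPT M P Q v w a b r r' R c D hp hq S hv hw ω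
    rw [hg, hg']
    exact pow_between ht p1 p2
  have hmeas : Measurable (fun ω : sqLattice.edgeSet → Bool => t ^ NP (opn ω) P Q) :=
    (measurable_from_top (f := fun n : ℕ => t ^ n)).comp (hME P Q)
  have i1 := integrable_FF hlf S g
  have i2 := integrable_FF hlf S g'
  have i3 : Integrable (fun ω : sqLattice.edgeSet → Bool => t ^ NP (opn ω) P Q) (bondLaw hlf) := by
    refine i1.mono' hmeas.aestronglyMeasurable (Filter.Eventually.of_forall fun ω => ?_)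
    rw [Real.norm_eq_abs, abs_of_nonneg (by positivity)]
    exact (hbt ω).2
  have j1 := integral_mono i2 i3 (fun ω => (hbt ω).1)
  have j2 := integral_mono i3 i1 (fun ω => (hbt ω).2)
  rw [Pool.Agent.W52.NC.int_FF hlf S g'] at j1
  rw [Pool.Agent.W52.NC.int_FF hlf S g] at j2
  have k1 : Ex (fun _ => (hlf : ℝ)) S g' = Ex P2 S g' := rfl
  have k2 : Ex (fun _ => (hlf : ℝ)) S g = Ex P2 S g := rfl
  rw [k1] at j1
  rw [k2] at j2
  rw [← hg] at e1
  rw [← hg'] at e2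
  constructor
  · refine le_trans ?_ j1
    rw [inv_mul_eq_div, div_mul_eq_mul_div, div_le_iff₀ hB, mul_comm (Ex P2 S g')]
    refine le_trans ?_ e2
    calc c1 * c1 * (X * Y) = (c1 * X) * (c1 * Y) := by ring
      _ ≤ G NA t r R * G NA t r' R := mul_le_mul g1 g3 (by positivity) ((by positivity : (0:ℝ) ≤ c1 * X).trans g1)
  · refine j2.trans (e1.trans ?_)
    rw [mul_assoc]
    apply mul_le_mul_of_nonneg_left _ hB.le
    calc G NA t r R * G NA t r' R ≤ (C1 * X) * (C1 * Y) :=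
          mul_le_mul g2 g4 ((by positivity : (0:ℝ) ≤ c1 * Y).trans g3) (by positivity)
      _ = C1 * C1 * (X * Y) := by ring

end Pool.Agent.Y996.NL
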