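import Pool.Agent.Y996.NL.Stm
import Pool.Agent.W819.NC.Final

set_option autoImplicit false

/-! NL: pointwise bounds -/

namespace Pool.Agent.Y996.NL

open H974 H906.Cyl Finset Pool.Agent.W819.EN Pool.Agent.W819.NC MeasureTheory

theorem bx_mono' {v : Vtx} {m n : ℤ} (h : m ≤ n) : bx v m ⊆ bx v n := by
  unfold bx
  intro e he
  obtain ⟨x, y, b⟩ := e
  cases b
  · rw [mem_RE_false] at he ⊢; omega
  · rw [mem_RE_true] at he ⊢; omega

theorem pt (hUP : S_UP) (hLOW : S_LOW) (hDV : S_DV) (hNG : S_NG) : S_PT := by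
  intro M P Q v w a b r r' R c D hp hq S hv hw ω
  have hc := hp.c1
  have hcR := hp.cR
  have hRD := hp.RD
  have har := hp.ar
  have hbr := hp.br
  have hac := hp.ac
  have hbc := hp.bc
  have hR16 : (R : ℤ) ≤ ((16 * D : ℕ) : ℤ) := by push_cast; omega
  have h8 : ((8 * D : ℕ) : ℤ) ≤ ((16 * D : ℕ) : ℤ) := by push_cast; omega
  have n1 : NG (opn ω) v r R = NA (FF S ω) v r R := hNG ω v r R S hp.rR ((bx_mono' hR16).trans hv)
  have n2 : NG (opn ω) w r' R = NA (FF S ω) w r' R :=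
    hNG ω w r' R S hp.rR' ((bx_mono' hR16).trans hw)
  have n3 : NG (opn ω) v a (8 * D) = NA (FF S ω) v a (8 * D) :=
    hNG ω v a (8 * D) S (by omega) ((bx_mono' h8).trans hv)
  have n4 : NG (opn ω) w b (8 * D) = NA (FF S ω) w b (8 * D) :=
    hNG ω w b (8 * D) S (by omega) ((bx_mono' h8).trans hw)
  constructor
  · rw [← n1, ← n2]
    refine hLOW (opn ω) P Q v w r r' R ⟨v, hq.aP.1⟩ ⟨w, hq.aQ.1⟩ hq.sP hq.sQ hq.fQ hq.fP ?_
    rcases hp.far with h | h
    · left; omega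
    · right; omega
  · have h1 := hUP (opn ω) (FF S ω) P Q v w a b D (by rw [FF_coe]; exact Set.inter_subset_left)
      hq.aP hq.aQ (by omega) (by omega) (by omega) hp.dx hp.dy
    rw [n3, n4] at h1
    have h2 := (hDV NA Wc Kc sys (FF S ω) v a r R c D hp.r1 hp.rR hp.c1 hp.cR hp.Rc hp.ar hp.ac
      (by omega)).1
    have h3 := (hDV NA Wc Kc sys (FF S ω) w b r' R c D hp.r1' hp.rR' hp.c1 hp.cR hp.Rc hp.br hp.bc
      (by omega)).2
    have e : ∑ j ∈ range 11, VV NA Wc Kc v w a b r r' c D j (FF S ω) =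
        (WA Wc (FF S ω) v a + NA (FF S ω) v a (2 * r) + Wc (FF S ω) v r + Wc (FF S ω) v c +
          2 * Kc (FF S ω) (v.1 - 8 * D) (v.1 - c) (v.2 - c) (v.2 + c)) +
        (WA Wc (FF S ω) w b + NA (FF S ω) w b (2 * r') + Wc (FF S ω) w r' + Wc (FF S ω) w c +
          2 * Kc (FF S ω) (w.1 + c) (w.1 + 8 * D) (w.2 - c) (w.2 + c)) +
        Wc (FF S ω) v (2 * D) := by
      simp only [Finset.sum_range_succ, Finset.sum_range_zero, VV]
      norm_num [XS]
      ring
    rw [e]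
    omega

end Pool.Agent.Y996.NL
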