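import Pool.Agent.W819.NC.Stm
import Pool.Agent.W38.EN.Cir
import Pool.Agent.W918.EN.Loc
import Pool.Agent.Y996.RD.Perc2

/-!
Project NL (nested layers between two continua): definitions and statements.

Faces, free moves `Mv`, steps `St`, chains `Ch`, `nmv`, `DA`, `NA`: `Pool.Agent.W819.EN.Geom`.
-/

set_option autoImplicit false

namespace Pool.Agent.Y996.NL

open H974 Finset Pool.Agent.W819.EN Pool.Agent.W819.NC MeasureTheory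
open Pool.Agent.Y996.RD (EN near nv NE Chain Size)

/-- the minimal number of colour changes between two sets of vertices -/
noncomputable def NP (G : Set Edg) (P Q : Set Vtx) : ℕ :=
  sInf {K | ∃ u ∈ P, ∃ w ∈ Q, Ch (Mv G) St K (fc u) (fc w)}

/-- the minimal number of colour changes between the distances `r` and `R` of `v`, for a set of
edges (for a finite set `F` this is `NA F`) -/
noncomputable def NG (G : Set Edg) (v : Vtx) (r R : ℕ) : ℕ := sInf {K | DA G v r R K}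

/-- `P` contains `v` and, if `a ≥ 1`, a path from `v` to the distance `2 a` -/
def Att (P : Set Vtx) (v : Vtx) (a : ℕ) : Prop :=
  v ∈ P ∧ (1 ≤ a → ∃ u : Vtx, (2 * (a : ℤ) ≤ |u.1 - v.1| ∨ 2 * (a : ℤ) ≤ |u.2 - v.2|) ∧
    Reach (EN P) v u)

/-- the cost of joining such a set to a chain around `v` -/
noncomputable def WA (W : WT) (F : Finset Edg) (v : Vtx) (a : ℕ) : ℕ := if a = 0 then 0 else W F v a

/-! ### deterministic statements -/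

/-- a chain from `P` to the distance `R` -/
def S_U1 : Prop := ∀ (G : Set Edg) (F : Finset Edg) (P : Set Vtx) (v : Vtx) (a R : ℕ),
  (↑F : Set Edg) ⊆ G → Att P v a → 2 * a ≤ R →
  ∃ x ∈ P, ∃ q : ℤ × ℤ, nmv v (fc x) ≤ 4 * a ∧ 2 * (R : ℤ) ≤ nmv v q ∧
    Ch (Mv G) St (NG G v a R + WA Wc F v a) (fc x) q

/-- joining two chains at a circuit -/
def S_U2 : Prop := ∀ (G : Set Edg) (F : Finset Edg) (v : Vtx) (D K1 K2 : ℕ) (p1 q1 p2 q2 : ℤ × ℤ),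
  (↑F : Set Edg) ⊆ G → 1 ≤ D → nmv v p1 ≤ 4 * D → 8 * (D : ℤ) ≤ nmv v q1 → nmv v p2 ≤ 4 * D →
  8 * (D : ℤ) ≤ nmv v q2 → Ch (Mv G) St K1 p1 q1 → Ch (Mv G) St K2 p2 q2 →
  Ch (Mv G) St (K1 + K2 + Wc F v (2 * D)) p1 p2

/-- upper bound of the number of changes between two sets -/
def S_UP : Prop := ∀ (G : Set Edg) (F : Finset Edg) (P Q : Set Vtx) (v w : Vtx) (a b D : ℕ),
  (↑F : Set Edg) ⊆ G → Att P v a → Att Q w b → 1 ≤ D → 2 * a ≤ D → 2 * b ≤ D →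
  |v.1 - w.1| ≤ D → |v.2 - w.2| ≤ D →
  NP G P Q ≤ (NG G v a (8 * D) + WA Wc F v a) + (NG G w b (8 * D) + WA Wc F w b) +
    Wc F v (2 * D)

/-- lower bound of the number of changes between two sets -/
def S_LOW : Prop := ∀ (G : Set Edg) (P Q : Set Vtx) (v w : Vtx) (r r' R : ℕ),
  P.Nonempty → Q.Nonempty →
  (R ≤ r ∨ ∀ u ∈ P, |u.1 - v.1| ≤ r ∧ |u.2 - v.2| ≤ r) →
  (R ≤ r' ∨ ∀ u ∈ Q, |u.1 - w.1| ≤ r' ∧ |u.2 - w.2| ≤ r') →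
  (∀ u ∈ Q, (R : ℤ) ≤ |u.1 - v.1| ∨ (R : ℤ) ≤ |u.2 - v.2|) →
  (∀ u ∈ P, (R : ℤ) ≤ |u.1 - w.1| ∨ (R : ℤ) ≤ |u.2 - w.2|) →
  (2 * (R : ℤ) + 2 ≤ |v.1 - w.1| ∨ 2 * (R : ℤ) + 2 ≤ |v.2 - w.2|) →
  NG G v r R + NG G w r' R ≤ NP G P Q

/-- two sets with close points: a deterministic bound -/
def S_SM : Prop := ∀ (G : Set Edg) (P Q : Set Vtx) (v w : Vtx) (m : ℕ), v ∈ P → w ∈ Q →
  |v.1 - w.1| ≤ m → |v.2 - w.2| ≤ m → NP G P Q ≤ 4 * m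

/-- locality -/
def S_NG : Prop := ∀ (ω : sqLattice.edgeSet → Bool) (v : Vtx) (r R : ℕ) (S : Finset Edg), r ≤ R →
  bx v R ⊆ S → NG (opn ω) v r R = NA (FF S ω) v r R

/-- measurability -/
def S_ME : Prop := ∀ P Q : Set Vtx, Measurable (fun ω : sqLattice.edgeSet → Bool => NP (opn ω) P Q)

/-! ### the costs -/

/-- the costs on one side: `(x0, x1, y0, y1)` is the corridor -/
noncomputable def XS (N : NT) (W : WT) (K : KT) (v : Vtx) (a r c : ℕ) (x0 x1 y0 y1 : ℤ) :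
    ℕ → Finset Edg → ℕ
  | 0 => fun F => WA W F v a
  | 1 => fun F => N F v a (2 * r)
  | 2 => fun F => W F v r
  | 3 => fun F => W F v c
  | _ => fun F => 2 * K F x0 x1 y0 y1

/-- the inequality used on one side, left and right corridors -/
def S_DV : Prop := ∀ (N : NT) (W : WT) (K : KT), Sys N W K → ∀ (F : Finset Edg) (v : Vtx)
  (a r R c D : ℕ), 1 ≤ r → r ≤ R → 1 ≤ c → 2 * c ≤ R → R ≤ 2 * c + 1 → a ≤ r → a ≤ c → R ≤ D →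
  N F v a (8 * D) ≤ N F v r R + (N F v a (2 * r) + W F v r + W F v c +
    2 * K F (v.1 - 8 * D) (v.1 - c) (v.2 - c) (v.2 + c)) ∧
  N F v a (8 * D) ≤ N F v r R + (N F v a (2 * r) + W F v r + W F v c +
    2 * K F (v.1 + c) (v.1 + 8 * D) (v.2 - c) (v.2 + c))

/-- moments of the costs of one side under the weighted law -/
def S_SI : Prop := ∀ (N : NT) (W : WT) (K : KT), Sys N W K → AMom N → TIn N → TOut N →
  ∀ (t s : ℝ) (M : ℕ), 0 < t → 1 ≤ s → ∃ A : ℝ, 0 < A ∧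
  ∀ (v : Vtx) (a r R c : ℕ) (x0 x1 y0 y1 : ℤ) (S : Finset Edg), 1 ≤ r → r ≤ R → 1 ≤ c →
  2 * c ≤ R → R ≤ 2 * c + 1 → a ≤ r → (r ≤ M * a ∨ (a = 0 ∧ r ≤ M)) → 1 ≤ y1 - y0 → x0 < x1 →
  x1 - x0 ≤ M * (y1 - y0) → Disjoint (LRE x0 x1 y0 y1) (bx v ((c : ℤ) - 1)) →
  bx v ((2 * R : ℕ) : ℤ) ⊆ S → LRE x0 x1 y0 y1 ⊆ S → ∀ j < 5,
  Ex P2 S (fun F => t ^ N F v r R * s ^ XS N W K v a r c x0 x1 y0 y1 j F) ≤ A * G N t r R

/-- independence of the two sides -/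
def S_IN : Prop := ∀ (N : NT), Geo N → LocG N → ∀ (t : ℝ) (v w : Vtx) (r r' R : ℕ)
  (S T : Finset Edg) (Y : Finset Edg → ℝ), r ≤ R → r' ≤ R → bx v R ∪ T ⊆ S → bx w R ⊆ S →
  Disjoint (bx v R ∪ T) (bx w R) → (∀ F, F ⊆ S → Y F = Y (F ∩ T)) →
  Ex P2 S (fun F => t ^ N F v r R * t ^ N F w r' R * Y F) =
    Ex P2 S (fun F => t ^ N F v r R * Y F) * G N t r' R

/-- all the costs -/
noncomputable def VV (N : NT) (W : WT) (K : KT) (v w : Vtx) (a b r r' c D : ℕ) :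
    ℕ → Finset Edg → ℕ := fun j =>
  if j < 5 then XS N W K v a r c (v.1 - 8 * D) (v.1 - c) (v.2 - c) (v.2 + c) j
  else if j < 10 then XS N W K w b r' c (w.1 + c) (w.1 + 8 * D) (w.2 - c) (w.2 + c) (j - 5)
  else fun F => W F v (2 * D)

/-- the conditions on the parameters -/
structure Par (M : ℕ) (v w : Vtx) (a b r r' R c D : ℕ) : Prop where
  r1 : 1 ≤ r
  r1' : 1 ≤ r'
  rR : r ≤ R
  rR' : r' ≤ R
  c1 : 1 ≤ c
  cR : 2 * c ≤ R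
  Rc : R ≤ 2 * c + 1
  ar : a ≤ r
  br : b ≤ r'
  ac : a ≤ c
  bc : b ≤ c
  aM : r ≤ M * a ∨ (a = 0 ∧ r ≤ M)
  bM : r' ≤ M * b ∨ (b = 0 ∧ r' ≤ M)
  RD : 4 * R ≤ D
  DM : D ≤ M * R
  vw : v.1 ≤ w.1
  dx : |v.1 - w.1| ≤ D
  dy : |v.2 - w.2| ≤ D
  far : 4 * (R : ℤ) ≤ |v.1 - w.1| ∨ 4 * (R : ℤ) ≤ |v.2 - w.2|

/-- the expectation bounds in finite volume; `u` is the weight of one unit of cost -/
def S_EX : Prop := ∀ (N : NT) (W : WT) (K : KT), Sys N W K → LocG N → AMom N → TIn N → TOut N →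
  ∀ (t : ℝ) (M : ℕ), 0 < t → ∃ B : ℝ, 0 < B ∧
  ∀ (v w : Vtx) (a b r r' R c D : ℕ), Par M v w a b r r' R c D →
  ∀ S : Finset Edg, bx v ((16 * D : ℕ) : ℤ) ⊆ S → bx w ((16 * D : ℕ) : ℤ) ⊆ S →
  Ex P2 S (fun F => t ^ (N F v r R + N F w r' R) *
      (max t t⁻¹) ^ (∑ j ∈ range 11, VV N W K v w a b r r' c D j F)) ≤
    B * (G N t r R * G N t r' R) ∧
  G N t r R * G N t r' R ≤ B * Ex P2 S (fun F => t ^ (N F v r R + N F w r' R) *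
      ((max t t⁻¹) ^ (∑ j ∈ range 11, VV N W K v w a b r r' c D j F))⁻¹)

/-! ### the infinite lattice -/

/-- two sets of vertices in good position -/
structure Pos (P Q : Set Vtx) (v w : Vtx) (a b r r' R : ℕ) : Prop where
  aP : Att P v a
  aQ : Att Q w b
  sP : R ≤ r ∨ ∀ u ∈ P, |u.1 - v.1| ≤ r ∧ |u.2 - v.2| ≤ r
  sQ : R ≤ r' ∨ ∀ u ∈ Q, |u.1 - w.1| ≤ r' ∧ |u.2 - w.2| ≤ r'
  fQ : ∀ u ∈ Q, (R : ℤ) ≤ |u.1 - v.1| ∨ (R : ℤ) ≤ |u.2 - v.2|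
  fP : ∀ u ∈ P, (R : ℤ) ≤ |u.1 - w.1| ∨ (R : ℤ) ≤ |u.2 - w.2|

/-- the pointwise bounds -/
def S_PT : Prop := ∀ (M : ℕ) (P Q : Set Vtx) (v w : Vtx) (a b r r' R c D : ℕ),
  Par M v w a b r r' R c D → Pos P Q v w a b r r' R → ∀ (S : Finset Edg),
  bx v ((16 * D : ℕ) : ℤ) ⊆ S → bx w ((16 * D : ℕ) : ℤ) ⊆ S → ∀ ω : sqLattice.edgeSet → Bool,
  NA (FF S ω) v r R + NA (FF S ω) w r' R ≤ NP (opn ω) P Q ∧
  NP (opn ω) P Q ≤ NA (FF S ω) v r R + NA (FF S ω) w r' R +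
    ∑ j ∈ range 11, VV NA Wc Kc v w a b r r' c D j (FF S ω)

/-- the expectation in the infinite lattice -/
def S_INF : Prop := ∀ (t : ℝ) (M : ℕ), 0 < t → ∃ c0 C0 : ℝ, 0 < c0 ∧ 0 < C0 ∧
  ∀ (P Q : Set Vtx) (v w : Vtx) (a b r r' R c D : ℕ),
  Par M v w a b r r' R c D → Pos P Q v w a b r r' R →
  c0 * (((R : ℝ) / r) ^ Psi t * ((R : ℝ) / r') ^ Psi t) ≤
    ∫ ω, t ^ NP (opn ω) P Q ∂(bondLaw hlf) ∧
  ∫ ω, t ^ NP (opn ω) P Q ∂(bondLaw hlf) ≤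
    C0 * (((R : ℝ) / r) ^ Psi t * ((R : ℝ) / r') ^ Psi t)

/-! ### geometry -/

/-- the radius of the inner circuit -/
noncomputable def ia (ε ρ : ℝ) : ℕ := ⌊ρ / (32 * ε)⌋₊

/-- the outer radius of a set of size `ρ` -/
noncomputable def ir (ε ρ : ℝ) (R : ℕ) : ℕ := min (⌈ρ / ε⌉₊ + 2) R

/-- from the plane to the lattice -/
def S_GE : Prop := ∀ (ε : ℝ) (K L : Set ℂ) (z w : ℂ) (ρ σ : ℝ), 0 < ε →
  Chain ε K z ρ → Chain ε L w σ → Size K z (dist z w) ρ → Size L w (dist z w) σ →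
  (∀ x ∈ K, ∀ y ∈ L, dist z w ≤ dist x y) → 64 * ε ≤ dist z w →
  (nv ε z).1 ≤ (nv ε w).1 →
  Par 700 (nv ε z) (nv ε w) (ia ε ρ) (ia ε σ) (ir ε ρ ⌊dist z w / (8 * ε)⌋₊)
    (ir ε σ ⌊dist z w / (8 * ε)⌋₊) ⌊dist z w / (8 * ε)⌋₊ (⌊dist z w / (8 * ε)⌋₊ / 2)
    (⌈dist z w / ε⌉₊ + 2) ∧
  Pos (near ε K) (near ε L) (nv ε z) (nv ε w) (ia ε ρ) (ia ε σ)
    (ir ε ρ ⌊dist z w / (8 * ε)⌋₊) (ir ε σ ⌊dist z w / (8 * ε)⌋₊) ⌊dist z w / (8 * ε)⌋₊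

/-- comparison of the ratios -/
def S_RT : Prop := ∀ (ε d ρ : ℝ), 0 < ε → 0 < ρ → ρ ≤ d → (ε ≤ ρ ∨ ρ = d) → 64 * ε ≤ d →
  d / ρ / 40 ≤ ((⌊d / (8 * ε)⌋₊ : ℕ) : ℝ) / (ir ε ρ ⌊d / (8 * ε)⌋₊ : ℕ) ∧
  ((⌊d / (8 * ε)⌋₊ : ℕ) : ℝ) / (ir ε ρ ⌊d / (8 * ε)⌋₊ : ℕ) ≤ d / ρ

/-! ### zero colour changes -/

/-- no colour change: an open path -/
def S_Z0 : Prop := ∀ (ω : sqLattice.edgeSet → Bool) (P Q : Set Vtx), P.Nonempty → Q.Nonempty →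
  (NP (opn ω) P Q = 0 ↔ ∃ u ∈ P, ∃ w ∈ Q, (openGraph ω).Reachable u w)

/-- symmetry -/
def S_SY : Prop := ∀ (G : Set Edg) (P Q : Set Vtx), NP G P Q = NP G Q P

end Pool.Agent.Y996.NL
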